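import Mathlib

namespace Pool.Agent.Results.MP_d31508_co.Near

open Finset
open scoped Classical

/-- Every set of exactly `k+2` vertices has a vertex adjacent to at least `k` others of the set. -/
def P {n : ℕ} (k : ℕ) (G : SimpleGraph (Fin n)) : Prop :=
  ∀ S : Finset (Fin n), S.card = k + 2 → ∃ v ∈ S, k ≤ (S.filter (G.Adj v)).card

section
variable {V : Type} (H : SimpleGraph V)

/-- degree inside a set -/
noncomputable def d (W : Finset V) (v : V) : ℕ := (W.filter (H.Adj v)).card

theorem d_mono {S W : Finset V} (h : S ⊆ W) (v : V) : d H S v ≤ d H W v :=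
  card_le_card (filter_subset_filter _ h)

theorem d_le {S T : Finset V} {v : V} (h : ∀ x ∈ S, H.Adj v x → x ∈ T) : d H S v ≤ T.card :=
  card_le_card fun x hx => h x (mem_filter.1 hx).1 (mem_filter.1 hx).2

theorem le_d {S T : Finset V} {v : V} (h : ∀ x ∈ T, x ∈ S ∧ H.Adj v x) : T.card ≤ d H S v :=
  card_le_card fun x hx => mem_filter.2 (h x hx)

theorem dpair (G : SimpleGraph V) (S : Finset V) (v : V) (hv : v ∈ S)
    (hc : ∀ x, H.Adj v x ↔ v ≠ x ∧ ¬ G.Adj v x) : d G S v + d H S v + 1 = S.card := by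
  have h1 : S.filter (G.Adj v) ∪ S.filter (H.Adj v) = S.erase v := by
    ext x
    simp only [mem_union, mem_filter, mem_erase, hc]
    constructor
    · rintro (h | h)
      · exact ⟨h.2.ne', h.1⟩
      · exact ⟨h.2.1.symm, h.1⟩
    · rintro ⟨h1, h2⟩
      by_cases h : G.Adj v x
      · exact Or.inl ⟨h2, h⟩
      · exact Or.inr ⟨h2, h1.symm, h⟩
  have h2 : Disjoint (S.filter (G.Adj v)) (S.filter (H.Adj v)) := by
    rw [disjoint_left]
    intro x h h'
    exact ((hc x).1 (mem_filter.1 h').2).2 (mem_filter.1 h).2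
  have h3 := card_union_of_disjoint h2
  rw [h1, card_erase_of_mem hv] at h3
  have := card_pos.2 ⟨v, hv⟩
  unfold d
  omega

theorem d_split (W L : Finset V) (v : V) : d H W v ≤ d H (W \ L) v + d H L v := by
  unfold d
  refine le_trans (card_le_card ?_) (card_union_le _ _)
  intro x hx
  simp only [mem_filter, mem_union, mem_sdiff] at hx ⊢
  tauto

theorem d_swap (A B : Finset V) : ∑ v ∈ A, d H B v = ∑ u ∈ B, d H A u := by
  simp only [d, card_filter]
  rw [sum_comm]
  exact sum_congr rfl fun u _ => sum_congr rfl fun v _ => by simp only [H.adj_comm]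

theorem D_split (W L : Finset V) (hL : L ⊆ W) :
    ∑ v ∈ W, d H W v ≤ ∑ v ∈ W \ L, d H (W \ L) v + 2 * ∑ v ∈ L, d H W v := by
  rw [← sum_sdiff hL]
  have h1 : ∑ v ∈ W \ L, d H W v ≤ ∑ v ∈ W \ L, (d H (W \ L) v + d H L v) :=
    sum_le_sum fun v _ => d_split H W L v
  rw [sum_add_distrib, d_swap H (W \ L) L] at h1
  have h2 : ∑ u ∈ L, d H (W \ L) u ≤ ∑ u ∈ L, d H W u :=
    sum_le_sum fun v _ => d_mono H sdiff_subset v
  omega

theorem D_le (W : Finset V) : ∑ v ∈ W, d H W v + W.card ≤ W.card * W.card := by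
  have : ∀ v ∈ W, d H W v + 1 ≤ W.card := by
    intro v hv
    have h1 : W.filter (H.Adj v) ⊆ W.erase v := by
      intro x hx
      simp only [mem_filter, mem_erase] at hx ⊢
      exact ⟨hx.2.ne', hx.1⟩
    have h2 := card_le_card h1
    rw [card_erase_of_mem hv] at h2
    have := card_pos.2 ⟨v, hv⟩
    unfold d; omega
  have h := sum_le_card_nsmul W (fun v => d H W v + 1) _ this
  rw [sum_add_distrib] at h
  simpa using h

theorem arith (k s l m : ℤ) (hs : 1 ≤ s) (hk : 5 * s ≤ k) (hm : 0 ≤ m) (h : m + l = k + 2 + s)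
    (hl : k + 3 ≤ 3 * l) : m * m - m + 2 * (l * (s + 1)) ≤ (k + 1) * k + 2 * (s + 1) := by
  obtain ⟨r, rfl⟩ : ∃ r, k = 5 * s + r := ⟨k - 5 * s, by ring⟩
  have hr : 0 ≤ r := by linarith
  have e : l = 5 * s + r + 2 + s - m := by linarith
  subst e
  have h1 : 0 ≤ 2 * (5 * s + r) + 3 + 3 * s - 3 * m := by linarith
  have h2 := mul_nonneg hm h1
  have h3 := mul_nonneg h1 (by linarith : 0 ≤ 2 * (5 * s + r) - 3 * s - 6)
  have h4 := mul_nonneg hr (by linarith : 0 ≤ s - 1)
  have h5 := mul_nonneg (by linarith : 0 ≤ s) (by linarith : 0 ≤ s - 1)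
  nlinarith [sq_nonneg r]

theorem upper (k t : ℕ) (hk : 5 * t ≤ k) (W : Finset V) (hW : W.card = k + 2 + t)
    (h : ∀ S ⊆ W, S.card = k + 2 → ∃ v ∈ S, d H S v ≤ 1) :
    ∑ v ∈ W, d H W v ≤ (k + 1) * k + 2 * (t + 1) := by
  induction t generalizing W with
  | zero =>
    obtain ⟨v, hv, h1⟩ := h W Subset.rfl hW
    have h2 := D_split H W {v} (by simpa using hv)
    have h3 := D_le H (W \ {v})
    have h4 : (W \ {v}).card = k + 1 := by
      rw [card_sdiff_of_subset (by simpa using hv), card_singleton]; omega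
    rw [h4] at h3
    rw [sum_singleton] at h2
    nlinarith
  | succ t ih =>
    by_cases hlow : ∃ v ∈ W, d H W v ≤ 1
    · obtain ⟨v, hv, h1⟩ := hlow
      have h2 := D_split H W {v} (by simpa using hv)
      have h4 : (W \ {v}).card = k + 2 + t := by
        rw [card_sdiff_of_subset (by simpa using hv), card_singleton]; omega
      have h3 := ih (by omega) (W \ {v}) h4 fun S hS => h S (hS.trans sdiff_subset)
      rw [sum_singleton] at h2
      omega
    push Not at hlow
    have hs : 1 ≤ t + 1 := by omega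
    generalize t + 1 = s at *
    set L := W.filter fun v => d H W v ≤ s + 1 with hL
    have hLW : L ⊆ W := filter_subset _ _
    by_cases hc : 3 * L.card ≤ k + 2
    · exfalso
      have hN : ∀ v, ∃ T : Finset V, T.card ≤ 2 ∧ (v ∈ W → T.card = 2 ∧ T ⊆ W.filter (H.Adj v)) := by
        intro v
        by_cases hv : v ∈ W
        · obtain ⟨T, hT, hT2⟩ := exists_subset_card_eq (s := W.filter (H.Adj v)) (n := 2) (hlow v hv)
          exact ⟨T, hT2.le, fun _ => ⟨hT2, hT⟩⟩
        · exact ⟨∅, by simp, fun h => absurd h hv⟩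
      choose N hN1 hN2 using hN
      set B := L ∪ L.biUnion N with hB
      have hB1 : B.card ≤ L.card + L.card * 2 := by
        refine (card_union_le _ _).trans (add_le_add le_rfl (card_biUnion_le.trans ?_))
        have := sum_le_card_nsmul L (fun v => (N v).card) 2 fun v _ => hN1 v
        rwa [smul_eq_mul] at this
      have hB2 : s ≤ (W \ B).card := by
        have := le_card_sdiff B W
        omega
      obtain ⟨X, hX, hXc⟩ := exists_subset_card_eq hB2
      have hXW : X ⊆ W := hX.trans sdiff_subset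
      obtain ⟨v, hv, h1⟩ := h (W \ X) sdiff_subset (by rw [card_sdiff_of_subset hXW]; omega)
      have hvW := (mem_sdiff.1 hv).1
      by_cases hvL : v ∈ L
      · have h3 : (N v).card ≤ d H (W \ X) v := by
          apply le_d
          intro x hx
          have h4 := mem_filter.1 ((hN2 v hvW).2 hx)
          refine ⟨mem_sdiff.2 ⟨h4.1, fun hxX => ?_⟩, h4.2⟩
          exact (mem_sdiff.1 (hX hxX)).2 (mem_union_right _ (mem_biUnion.2 ⟨v, hvL, hx⟩))
        have := (hN2 v hvW).1
        omega
      · have h2 := d_split H W X v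
        have h3 : d H X v ≤ s := by
          rw [← hXc]; exact card_filter_le _ _
        have h4 : ¬ d H W v ≤ s + 1 := fun h => hvL (mem_filter.2 ⟨hvW, h⟩)
        omega
    · have h2 := D_split H W L hLW
      have h3 := D_le H (W \ L)
      have h4 := sum_le_card_nsmul L (fun v => d H W v) (s + 1) fun v hv => (mem_filter.1 hv).2
      rw [smul_eq_mul] at h4
      have h5 := card_sdiff_add_card_eq_card hLW
      have h6 := arith k s L.card (W \ L).card (by omega) (by omega) (by omega) (by omega) (by omega)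
      zify at h2 h3 h4 ⊢
      linarith

end

theorem dcompl {n : ℕ} (G : SimpleGraph (Fin n)) (S : Finset (Fin n)) (v : Fin n) (hv : v ∈ S) :
    d G S v + d Gᶜ S v + 1 = S.card :=
  dpair Gᶜ G S v hv fun x => SimpleGraph.compl_adj G v x

theorem edges {n : ℕ} (G : SimpleGraph (Fin n)) :
    2 * G.edgeSet.ncard + ∑ v, d Gᶜ univ v + n = n * n := by
  have h1 := G.sum_degrees_eq_twice_card_edges
  have h2 : G.edgeSet.ncard = G.edgeFinset.card := by
    rw [← Set.ncard_coe_finset, SimpleGraph.coe_edgeFinset]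
  have h3 : ∑ v, G.degree v = ∑ v, d G univ v := sum_congr rfl fun v _ => by
    rw [← SimpleGraph.card_neighborFinset_eq_degree, SimpleGraph.neighborFinset_eq_filter]
    rfl
  have h4 : ∑ v : Fin n, (d G univ v + d Gᶜ univ v + 1) = ∑ _v : Fin n, n :=
    sum_congr rfl fun v _ => by rw [dcompl G univ v (mem_univ _)]; simp
  rw [sum_add_distrib, sum_add_distrib] at h4
  simp only [sum_const, card_univ, Fintype.card_fin, smul_eq_mul, mul_one] at h4
  omega

theorem ch2 (m : ℕ) : 2 * m.choose 2 + m = m * m := by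
  induction m with
  | zero => rfl
  | succ m ih => rw [Nat.choose_succ_succ' m 1, Nat.choose_one_right]; nlinarith

theorem Piff {n : ℕ} (k : ℕ) (G : SimpleGraph (Fin n)) :
    P k G ↔ ∀ S ⊆ (univ : Finset (Fin n)), S.card = k + 2 → ∃ v ∈ S, d Gᶜ S v ≤ 1 := by
  constructor
  · intro h S _ hS
    obtain ⟨v, hv, h1⟩ := h S hS
    have := dcompl G S v hv
    have h2 : k ≤ d G S v := h1
    exact ⟨v, hv, by omega⟩
  · intro h S hS
    obtain ⟨v, hv, h1⟩ := h S (subset_univ _) hS
    have := dcompl G S v hv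
    have h2 : k ≤ d G S v := by omega
    exact ⟨v, hv, h2⟩

theorem result (k t : ℕ) (hk : 5 * t ≤ k) :
    IsLeast {m : ℕ | ∃ G : SimpleGraph (Fin (k + 2 + t)), P k G ∧ G.edgeSet.ncard = m}
      ((k + 2 + t).choose 2 - (k + 1).choose 2 - (t + 1)) := by
  have c1 := ch2 (k + 2 + t)
  have c2 := ch2 (k + 1)
  have c3 : (k + 1) * (k + 1) = (k + 1) * k + (k + 1) := by ring
  have key : ∀ G : SimpleGraph (Fin (k + 2 + t)), P k G →
      ∑ v, d Gᶜ univ v ≤ (k + 1) * k + 2 * (t + 1) := fun G hG =>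
    upper Gᶜ k t hk univ (by simp) ((Piff k G).1 hG)
  constructor
  · obtain ⟨A, -, hA⟩ := exists_subset_card_eq (s := (univ : Finset (Fin (k + 2 + t)))) (n := k + 1)
      (by simp; omega)
    obtain ⟨z, hz⟩ : A.Nonempty := card_pos.1 (by omega)
    let H : SimpleGraph (Fin (k + 2 + t)) :=
      SimpleGraph.fromRel fun u v => (u ∈ A ∧ v ∈ A) ∨ u = z
    have hadj : ∀ u v, H.Adj u v ↔ u ≠ v ∧ ((u ∈ A ∧ v ∈ A) ∨ u = z ∨ v = z) := by
      intro u v
      simp only [H, SimpleGraph.fromRel_adj]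
      tauto
    have hP : P k Hᶜ := by
      rw [Piff, compl_compl]
      intro S _ hS
      obtain ⟨v, hv, hvA⟩ : ∃ v ∈ S, v ∉ A := exists_mem_notMem_of_card_lt_card (by omega)
      refine ⟨v, hv, ?_⟩
      refine (d_le H (T := {z}) ?_).trans (by simp)
      intro x _ hx
      rcases ((hadj v x).1 hx).2 with h | h | h
      · exact absurd h.1 hvA
      · exact absurd (h ▸ hz) hvA
      · simpa using h
    refine ⟨Hᶜ, hP, ?_⟩
    have e1 := edges Hᶜ
    have e2 := key Hᶜ hP
    rw [compl_compl] at e1 e2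
    have s1 : ∑ v, d H univ v = ∑ v ∈ univ \ A, d H univ v + ∑ v ∈ A, d H univ v :=
      (sum_sdiff (subset_univ A)).symm
    have hc : (univ \ A).card = t + 1 := by
      rw [card_sdiff_of_subset (subset_univ _)]; simp; omega
    have s2 : (univ \ A).card • 1 ≤ ∑ v ∈ univ \ A, d H univ v := by
      apply card_nsmul_le_sum
      intro v hv
      have hvA := (mem_sdiff.1 hv).2
      refine le_trans (by simp) (le_d H (T := {z}) ?_)
      intro x hx
      rw [mem_singleton.1 hx]
      exact ⟨mem_univ _, (hadj v z).2 ⟨fun h => hvA (h ▸ hz), Or.inr (Or.inr rfl)⟩⟩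
    have s3 : ∑ v ∈ A, d H univ v = d H univ z + ∑ v ∈ A.erase z, d H univ v :=
      (add_sum_erase A _ hz).symm
    have s4 : (A.erase z).card • k ≤ ∑ v ∈ A.erase z, d H univ v := by
      apply card_nsmul_le_sum
      intro v hv
      have hvA := mem_of_mem_erase hv
      have h2 := le_d H (S := univ) (T := A.erase v) (v := v) fun x hx =>
        ⟨mem_univ _, (hadj v x).2 ⟨(mem_erase.1 hx).1.symm, Or.inl ⟨hvA, mem_of_mem_erase hx⟩⟩⟩
      rw [card_erase_of_mem hvA] at h2
      omega
    have s5 : k + 1 + t ≤ d H univ z := by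
      have h2 := le_d H (S := univ) (T := univ.erase z) (v := z) fun x hx =>
        ⟨mem_univ _, (hadj z x).2 ⟨(mem_erase.1 hx).1.symm, Or.inr (Or.inl rfl)⟩⟩
      rw [card_erase_of_mem (mem_univ _)] at h2
      simp only [card_univ, Fintype.card_fin] at h2
      omega
    rw [hc, smul_eq_mul] at s2
    rw [card_erase_of_mem hz, hA, smul_eq_mul, Nat.add_sub_cancel] at s4
    have c4 : (k + 1) * k = k * k + k := by ring
    omega
  · rintro m ⟨G, hG, rfl⟩
    have e1 := edges G
    have e2 := key G hG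
    omega

end Pool.Agent.Results.MP_d31508_co.Near
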